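import Pool.Agent.Helper57.SL.Stmts
import Pool.Agent.Helper99.SI.MT

/-! # Row MTS: consequences of Mertens' theorem near `σ = 1` -/

set_option autoImplicit false

namespace Pool.Agent.Helper7.SL

open MeasureTheory Set Filter Topology
open Pool.Agent.Helper57.SI (Kk zz P1 P2)
open Pool.Agent.Helper57.SL
open Pool.Agent.Helper99.SI (MT_P2 MT_l4 MT_z)

theorem mts_sub {z Y : ℕ} (h : z ≤ Y) : Nat.primesBelow (z + 1) ⊆ Nat.primesBelow (Y + 1) := by
  intro p hp
  rw [Nat.mem_primesBelow] at hp ⊢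
  exact ⟨by omega, hp.2⟩

theorem mts_mem {z Y p : ℕ} (hp : p ∈ Nat.primesBelow (Y + 1) \ Nat.primesBelow (z + 1)) :
    z < p ∧ p ≤ Y ∧ p.Prime := by
  rw [Finset.mem_sdiff, Nat.mem_primesBelow, Nat.mem_primesBelow] at hp
  refine ⟨?_, by omega, hp.1.2⟩
  by_contra hh
  exact hp.2 ⟨by omega, hp.1.2⟩

theorem mts_pow {p : ℕ} (hp : p.Prime) (σ : ℝ) :
    Real.log p * (p : ℝ) ^ (-σ) = (p : ℝ) ^ (1 - σ) * (Real.log p / p) := by
  have hp0 : (0 : ℝ) < p := by exact_mod_cast hp.pos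
  have h : (p : ℝ) ^ (1 - σ) = p * (p : ℝ) ^ (-σ) := by
    rw [sub_eq_add_neg, Real.rpow_add hp0, Real.rpow_one]
  rw [h]
  field_simp

theorem mts_S2 {z Y : ℕ} (h : z ≤ Y) (σ : ℝ) : S2 σ Y - S2 σ z =
    ∑ p ∈ Nat.primesBelow (Y + 1) \ Nat.primesBelow (z + 1), Real.log p * (p : ℝ) ^ (-σ) := by
  unfold S2
  rw [← Finset.sum_sdiff (mts_sub h)]
  ring

theorem mts_P2 {z Y : ℕ} (h : z ≤ Y) : P2 Y - P2 z =
    ∑ p ∈ Nat.primesBelow (Y + 1) \ Nat.primesBelow (z + 1), Real.log p / (p : ℝ) := by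
  unfold P2
  rw [← Finset.sum_sdiff (mts_sub h)]
  ring

/-- upper bound of the difference -/
theorem mts_up {z Y : ℕ} (h : z ≤ Y) {σ : ℝ} (hσ : σ ≤ 1) :
    S2 σ Y - S2 σ z ≤ (Y : ℝ) ^ (1 - σ) * (P2 Y - P2 z) := by
  rw [mts_S2 h, mts_P2 h, Finset.mul_sum]
  refine Finset.sum_le_sum fun p hp => ?_
  obtain ⟨h1, h2, h3⟩ := mts_mem hp
  have hp0 : (0 : ℝ) < p := by exact_mod_cast h3.pos
  rw [mts_pow h3]
  refine mul_le_mul_of_nonneg_right ?_ (div_nonneg (Real.log_natCast_nonneg p) hp0.le)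
  exact Real.rpow_le_rpow hp0.le (by exact_mod_cast h2) (by linarith)

/-- lower bound of the difference -/
theorem mts_low {z w : ℕ} (h : w ≤ z) {σ r : ℝ} (hσ : σ ≤ 1) (hr : 0 ≤ r) (hrw : r ≤ w + 1) :
    r ^ (1 - σ) * (P2 z - P2 w) ≤ S2 σ z := by
  have h0 : 0 ≤ S2 σ w := by
    unfold S2
    exact Finset.sum_nonneg fun p _ => mul_nonneg (Real.log_natCast_nonneg p)
      (Real.rpow_nonneg (Nat.cast_nonneg p) _)
  have h1 : r ^ (1 - σ) * (P2 z - P2 w) ≤ S2 σ z - S2 σ w := by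
    rw [mts_S2 h, mts_P2 h, Finset.mul_sum]
    refine Finset.sum_le_sum fun p hp => ?_
    obtain ⟨h1, h2, h3⟩ := mts_mem hp
    have hp0 : (0 : ℝ) < p := by exact_mod_cast h3.pos
    rw [mts_pow h3]
    refine mul_le_mul_of_nonneg_right ?_ (div_nonneg (Real.log_natCast_nonneg p) hp0.le)
    refine Real.rpow_le_rpow hr (hrw.trans ?_) (by linarith)
    exact_mod_cast h1
  linarith

theorem mts_S2P2 (z : ℕ) {σ : ℝ} (hσ : σ ≤ 1) : P2 z ≤ S2 σ z := by
  unfold P2 S2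
  refine Finset.sum_le_sum fun p hp => ?_
  rw [Nat.mem_primesBelow] at hp
  have hp0 : (0 : ℝ) < p := by exact_mod_cast hp.2.pos
  rw [mts_pow hp.2]
  have h1 : 1 ≤ (p : ℝ) ^ (1 - σ) :=
    Real.one_le_rpow (by exact_mod_cast hp.2.one_lt.le) (by linarith)
  have h2 := div_nonneg (Real.log_natCast_nonneg p) hp0.le
  nlinarith

theorem mts_S1 {z Y : ℕ} (h : z ≤ Y) (σ : ℝ) :
    Real.log z * (S1 σ Y - S1 σ z) ≤ S2 σ Y - S2 σ z := by
  have h1 : S1 σ Y - S1 σ z =
      ∑ p ∈ Nat.primesBelow (Y + 1) \ Nat.primesBelow (z + 1), (p : ℝ) ^ (-σ) := by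
    unfold S1
    rw [← Finset.sum_sdiff (mts_sub h)]
    ring
  rw [h1, mts_S2 h, Finset.mul_sum]
  refine Finset.sum_le_sum fun p hp => ?_
  obtain ⟨h1, h2, h3⟩ := mts_mem hp
  refine mul_le_mul_of_nonneg_right ?_ (Real.rpow_nonneg (Nat.cast_nonneg p) _)
  rcases Nat.eq_zero_or_pos z with h0 | h0
  · subst h0
    rw [Nat.cast_zero, Real.log_zero]
    exact Real.log_natCast_nonneg p
  · exact Real.log_le_log (by exact_mod_cast h0) (by exact_mod_cast h1.le)

theorem st_MTS : ST_MTS := by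
  intro η hη C
  obtain ⟨hη0, hη1⟩ := hη
  refine ⟨η / 200, ⟨by positivity, by linarith⟩,
    Real.exp (Real.exp (max ((1000 / η) ^ 2) (4 * |C| / η))), ?_, ?_⟩
  · have h1 := Real.add_one_le_exp (Real.exp (max ((1000 / η) ^ 2) (4 * |C| / η)))
    have h2 := Real.add_one_le_exp (max ((1000 / η) ^ 2) (4 * |C| / η))
    have h3 := le_max_left ((1000 / η) ^ 2) (4 * |C| / η)
    have h4 : 1000 ≤ 1000 / η := by
      rw [le_div_iff₀ hη0]; linarith
    nlinarith
  intro H hH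
  have hHpos : 0 < H := (Real.exp_pos _).trans_le hH
  have hL : Real.exp (max ((1000 / η) ^ 2) (4 * |C| / η)) ≤ Real.log H := by
    rw [Real.le_log_iff_exp_le hHpos]
    exact hH
  have hLpos : 0 < Real.log H := (Real.exp_pos _).trans_le hL
  have hl : max ((1000 / η) ^ 2) (4 * |C| / η) ≤ Real.log (Real.log H) := by
    rw [Real.le_log_iff_exp_le hLpos]
    exact hL
  unfold YY l3 zz Kk
  generalize hLd : Real.log H = L at *
  generalize hld : Real.log L = l at *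
  generalize hmd : Real.log l = m at *
  have h1 : (1000 / η) ^ 2 ≤ l := (le_max_left _ _).trans hl
  have h2 : 4 * |C| / η ≤ l := (le_max_right _ _).trans hl
  have h1000 : 1000 ≤ 1000 / η := by
    rw [le_div_iff₀ hη0]; linarith
  have hl6 : 1000000 ≤ l := by nlinarith
  have hl0 : 0 < l := by linarith
  -- `m ≤ η l / 500`
  have hsq : 1000 / η ≤ Real.sqrt l := Real.le_sqrt_of_sq_le h1
  have hs0 : 0 < Real.sqrt l := by
    have : 0 < 1000 / η := by positivity
    linarith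
  have hm : m ≤ η * l / 500 := by
    have a1 : Real.log l ≤ 2 * Real.sqrt l := by
      have b1 : Real.log (Real.sqrt l) ≤ Real.sqrt l := (Real.log_le_sub_one_of_pos hs0).trans
        (by linarith)
      rw [Real.log_sqrt hl0.le] at b1
      linarith
    have a2 : 1000 * Real.sqrt l ≤ η * l := by
      have b1 : 1000 ≤ η * Real.sqrt l := by
        rw [div_le_iff₀ hη0] at hsq
        linarith
      have b2 := mul_le_mul_of_nonneg_right b1 hs0.le
      have b3 : η * Real.sqrt l * Real.sqrt l = η * l := by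
        rw [mul_assoc, Real.mul_self_sqrt hl0.le]
      linarith
    rw [hmd] at a1
    linarith
  have hm6 : 6 ≤ m := by
    rw [← hmd, Real.le_log_iff_exp_le hl0]
    have a1 : Real.exp 6 = Real.exp 1 ^ 6 := by
      rw [← Real.exp_nat_mul]
      norm_num
    have a2 := Real.exp_one_lt_d9
    have a3 : Real.exp 1 ^ 6 ≤ 3 ^ 6 := pow_le_pow_left₀ (Real.exp_pos 1).le (by linarith) 6
    rw [a1]
    linarith
  have hηl : η * l ≤ l := by nlinarith
  have hC : |C| ≤ η * l / 4 := by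
    rw [div_le_iff₀ hη0] at h2
    linarith
  have hCabs : C ≤ |C| := le_abs_self C
  have hC0 : 0 ≤ |C| := abs_nonneg C
  obtain ⟨hz0, hzL, hzlog⟩ := MT_z L l hLpos hld (by linarith)
  have hl1 : Real.log (l + 1) ≤ m + 1 := by
    have a1 : l + 1 ≤ Real.exp 1 * l := by
      have := Real.add_one_le_exp (1 : ℝ)
      nlinarith
    have a2 := Real.log_le_log (by linarith) a1
    rw [Real.log_mul (Real.exp_pos 1).ne' hl0.ne', Real.log_exp, hmd] at a2
    linarith
  have hl10 : (1 : ℝ) ≤ l ^ 10 := one_le_pow₀ (by linarith)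
  have hLY : L ≤ L * l ^ 10 := by nlinarith
  have hzfl : ⌊L / (8 * (⌈l⌉₊ : ℝ))⌋₊ ≤ ⌊L⌋₊ := Nat.floor_le_floor hzL
  have hfY : ⌊L⌋₊ ≤ ⌊L * l ^ 10⌋₊ := Nat.floor_le_floor hLY
  generalize hz : ⌊L / (8 * (⌈l⌉₊ : ℝ))⌋₊ = z at *
  generalize hY : ⌊L * l ^ 10⌋₊ = Y at *
  have hzY : z ≤ Y := hzfl.trans hfY
  have hz1 : (0 : ℝ) < z := by exact_mod_cast hz0
  have hY0 : 0 < Y := lt_of_lt_of_le hz0 hzY
  have hY1 : (0 : ℝ) < Y := by exact_mod_cast hY0
  have hlz : l - 4 - m ≤ Real.log z := by linarith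
  have hlz2 : l / 2 ≤ Real.log z := by linarith
  have hlY : Real.log Y ≤ l + 10 * m := by
    have a1 : (Y : ℝ) ≤ L * l ^ 10 := by
      rw [← hY]
      exact Nat.floor_le (by positivity)
    have a2 := Real.log_le_log hY1 a1
    rw [Real.log_mul hLpos.ne' (by positivity), Real.log_pow, hld, hmd] at a2
    push_cast at a2
    linarith
  have hzexp : Real.log z ≤ z := by
    have := Real.log_le_sub_one_of_pos hz1
    linarith
  refine ⟨by linarith, by linarith, hzfl, hfY, Real.log_natCast_nonneg Y, by linarith, ?_⟩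
  intro σ hσ
  obtain ⟨hσ1, hσ2⟩ := hσ
  have hx0 : 0 ≤ 1 - σ := by linarith
  have hxm : (1 - σ) * m ≤ η / 200 := by
    have a1 : 1 - σ ≤ η / 200 / m := by linarith
    rwa [le_div_iff₀ (by linarith)] at a1
  have hx1 : 1 - σ ≤ 1 / 4 := by nlinarith
  have hP2z : Real.log z - 3 ≤ P2 z := by
    rw [MT_P2]
    exact Pool.Agent.Helper56.CP.mtA_ge hz0
  have hP2Y : P2 Y ≤ Real.log Y + Real.log 4 := by
    rw [MT_P2]
    exact Pool.Agent.Helper56.CP.mtA_le hY0
  have h4 := MT_l4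
  have hS0 := mts_S2P2 z hσ2
  have hSl : 1 / 2 * l ≤ S2 σ z := by linarith
  -- the point `w`
  obtain ⟨D, hD⟩ : ∃ D, D = 6 + 80 / η * m := ⟨_, rfl⟩
  have hD0 : 0 < D := by rw [hD]; positivity
  have hDl : D ≤ l / 4 := by
    have a1 : 80 / η * m ≤ 80 / η * (η * l / 500) := mul_le_mul_of_nonneg_left hm (by positivity)
    have a2 : 80 / η * (η * l / 500) = 80 * l / 500 := by field_simp
    rw [hD]
    linarith
  obtain ⟨r, hr⟩ : ∃ r, r = (z : ℝ) * Real.exp (-D) := ⟨_, rfl⟩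
  have hr0 : 0 < r := by rw [hr]; positivity
  have hlr : Real.log r = Real.log z - D := by
    rw [hr, Real.log_mul hz1.ne' (Real.exp_pos _).ne', Real.log_exp]
    ring
  have hr1 : 1 ≤ r := by
    have a1 : 0 ≤ Real.log r := by rw [hlr]; linarith
    by_contra hh
    push Not at hh
    have := Real.log_neg hr0 hh
    linarith
  obtain ⟨w, hw⟩ : ∃ w : ℕ, w = ⌊r⌋₊ := ⟨_, rfl⟩
  have hw0 : 0 < w := by
    rw [hw]
    exact Nat.floor_pos.2 hr1
  have hwr : (w : ℝ) ≤ r := by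
    rw [hw]
    exact Nat.floor_le hr0.le
  have hrw : r ≤ w + 1 := by
    rw [hw]
    exact (Nat.lt_floor_add_one r).le
  have hrz : r ≤ z := by
    rw [hr]
    have : Real.exp (-D) ≤ 1 := Real.exp_le_one_iff.2 (by linarith)
    nlinarith
  have hwz : w ≤ z := by
    have : (w : ℝ) ≤ z := hwr.trans hrz
    exact_mod_cast this
  have hP2w : P2 w ≤ Real.log w + Real.log 4 := by
    rw [MT_P2]
    exact Pool.Agent.Helper56.CP.mtA_le hw0
  have hlw : Real.log w ≤ Real.log z - D := by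
    rw [← hlr]
    exact Real.log_le_log (by exact_mod_cast hw0) hwr
  have hlow := mts_low hwz hσ2 hr0.le hrw
  have hzx : 0 < (z : ℝ) ^ (1 - σ) := Real.rpow_pos_of_pos hz1 _
  have hrx : (z : ℝ) ^ (1 - σ) * (1 / 2) ≤ r ^ (1 - σ) := by
    rw [hr, Real.mul_rpow hz1.le (Real.exp_pos _).le, ← Real.exp_mul]
    refine mul_le_mul_of_nonneg_left ?_ hzx.le
    have a1 := Real.add_one_le_exp (-D * (1 - σ))
    have a2 : D * (1 - σ) ≤ 1 / 2 := by
      have b1 : D * (1 - σ) = 6 * (1 - σ) + 80 / η * ((1 - σ) * m) := by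
        rw [hD]; ring
      have b2 : 80 / η * ((1 - σ) * m) ≤ 80 / η * (η / 200) :=
        mul_le_mul_of_nonneg_left hxm (by positivity)
      have b3 : 80 / η * (η / 200) = 80 / 200 := by field_simp
      have b4 : 6 * (1 - σ) ≤ (1 - σ) * m := by nlinarith
      linarith
    linarith
  have hS2low : (z : ℝ) ^ (1 - σ) * (40 / η * m) ≤ S2 σ z := by
    have a1 : 80 / η * m ≤ P2 z - P2 w := by
      rw [hD] at hlw
      linarith
    have a2 : 0 ≤ 80 / η * m := by positivity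
    calc (z : ℝ) ^ (1 - σ) * (40 / η * m) = (z : ℝ) ^ (1 - σ) * (1 / 2) * (80 / η * m) := by ring
      _ ≤ r ^ (1 - σ) * (P2 z - P2 w) :=
          mul_le_mul hrx a1 a2 (Real.rpow_nonneg hr0.le _)
      _ ≤ S2 σ z := hlow
  have hup := mts_up hzY hσ2
  have hYx : (Y : ℝ) ^ (1 - σ) ≤ (z : ℝ) ^ (1 - σ) * (3 / 2) := by
    have a1 : (Y : ℝ) ^ (1 - σ) = (z : ℝ) ^ (1 - σ) *
        Real.exp ((Real.log Y - Real.log z) * (1 - σ)) := by
      rw [Real.rpow_def_of_pos hY1, Real.rpow_def_of_pos hz1, ← Real.exp_add]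
      congr 1
      ring
    rw [a1]
    refine mul_le_mul_of_nonneg_left ?_ hzx.le
    have a2 : (Real.log Y - Real.log z) * (1 - σ) ≤ 1 / 10 := by
      have b1 : Real.log Y - Real.log z ≤ 12 * m := by linarith
      have b2 := mul_le_mul_of_nonneg_right b1 hx0
      linarith
    have a3 : Real.exp ((Real.log Y - Real.log z) * (1 - σ)) ≤ Real.exp (1 / 10) :=
      Real.exp_le_exp.2 a2
    have a4 : Real.exp (1 / 10) ≤ 3 / 2 := by
      have b1 := Real.add_one_le_exp (-(1 / 10 : ℝ))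
      have b2 : Real.exp (1 / 10) * Real.exp (-(1 / 10)) = 1 := by
        rw [← Real.exp_add]
        norm_num
      have b3 := Real.exp_pos (1 / 10 : ℝ)
      nlinarith
    linarith
  have hdiff : S2 σ Y - S2 σ z ≤ η / 2 * S2 σ z := by
    have a1 : P2 Y - P2 z ≤ 13 * m := by linarith
    have a2 : 0 ≤ P2 Y - P2 z := by
      rw [mts_P2 hzY]
      exact Finset.sum_nonneg fun p _ => div_nonneg (Real.log_natCast_nonneg p)
        (Nat.cast_nonneg p)
    calc S2 σ Y - S2 σ z ≤ (Y : ℝ) ^ (1 - σ) * (P2 Y - P2 z) := hup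
      _ ≤ (z : ℝ) ^ (1 - σ) * (3 / 2) * (13 * m) :=
          mul_le_mul hYx a1 a2 (by positivity)
      _ ≤ η / 2 * ((z : ℝ) ^ (1 - σ) * (40 / η * m)) := by
          have b1 : η / 2 * ((z : ℝ) ^ (1 - σ) * (40 / η * m)) =
              (z : ℝ) ^ (1 - σ) * (20 * m) := by
            field_simp
            ring
          rw [b1, mul_assoc]
          exact mul_le_mul_of_nonneg_left (by linarith) hzx.le
      _ ≤ η / 2 * S2 σ z := mul_le_mul_of_nonneg_left hS2low (by positivity)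
  have hSpos : 0 < S2 σ z := by linarith
  refine ⟨by linarith, ?_, hSl, ?_, ?_⟩
  · have a1 := mul_le_mul_of_nonneg_left hSl hη0.le
    linarith
  · have : 0 ≤ η / 2 * S2 σ z := by positivity
    linarith
  · have a1 := mts_S1 hzY σ
    have a2 : Real.log z * (S1 σ Y - S1 σ z) ≤ η / 2 * S2 σ z := a1.trans hdiff
    have a3 : 0 ≤ S1 σ Y - S1 σ z := by
      unfold S1
      rw [← Finset.sum_sdiff (mts_sub hzY)]
      have : 0 ≤ ∑ p ∈ Nat.primesBelow (Y + 1) \ Nat.primesBelow (z + 1), (p : ℝ) ^ (-σ) :=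
        Finset.sum_nonneg fun p _ => Real.rpow_nonneg (Nat.cast_nonneg p) _
      linarith
    have a4 := mul_le_mul_of_nonneg_right hlz2 a3
    have a5 : η * (S2 σ z / l) = (η * S2 σ z) / l := by ring
    rw [a5, le_div_iff₀ hl0]
    linarith

end Pool.Agent.Helper7.SL
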